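import Pool.Agent.N437.QR.Stm

/-!
# Project QR: the tensor power identity
-/

set_option autoImplicit false

namespace Pool.Agent.N415.QR

open Finset Pool.Agent.N437.QR

theorem Wk_map {V : Type} (d : ℕ) (η : ℝ) (y : V → (Fin d → Bool)) (e : Sym2 V) :
    Wk d η (e.map y) = ∏ i, (1 + η * sg2 (e.map (fun v => y v i))) := by
  induction e using Sym2.ind with
  | _ a b => rfl

theorem t_TEN : S_TEN := by
  intro V _ _ E d η
  set G : (V → Bool) → ℝ := fun z => ∏ e ∈ E, (1 + η * sg2 (e.map z)) with hG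
  have h1 : ∀ y : V → (Fin d → Bool), ∏ e ∈ E, Wk d η (e.map y) = ∏ i : Fin d, G (fun v => y v i) := by
    intro y
    simp only [Wk_map, hG]
    rw [prod_comm]
  have h2 : ∑ y : V → (Fin d → Bool), ∏ i : Fin d, G (fun v => y v i) = (∑ z : V → Bool, G z) ^ d := by
    have h3 : ∑ y : V → (Fin d → Bool), ∏ i : Fin d, G (fun v => y v i)
        = ∑ z : Fin d → (V → Bool), ∏ i : Fin d, G (z i) :=
      Fintype.sum_equiv (Equiv.piComm fun _ _ => Bool) _ _ fun y => rfl
    rw [h3]
    have h4 := prod_univ_sum (fun _ : Fin d => (univ : Finset (V → Bool))) (fun _ z => G z)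
    rw [prod_const, card_univ, Fintype.card_fin, Fintype.piFinset_univ] at h4
    rw [h4]
  unfold Av Zf
  simp only [h1]
  rw [h2, mul_pow]
  congr 1
  rw [Fintype.card_fun, Fintype.card_fun, Fintype.card_bool, Fintype.card_fin]
  push_cast
  rw [← pow_mul, inv_pow, ← pow_mul, mul_comm]

end Pool.Agent.N415.QR
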